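import Pool.Agent.TH131.MTate.Defs
import Pool.Agent.TH131.Ord.Main

/-!
# The motivic Tate conjecture: the dévissage
-/

set_option autoImplicit false

open CategoryTheory CategoryTheory.Limits AlgebraicGeometry

namespace Pool.Agent.TH131.MTate

open Pool.Agent.TH90.Cub Pool.Agent.TH590.JH Pool.Agent.TH131.Semi

universe v u

attribute [local instance] Abelian.hasFiniteBiproducts

section

variable {𝓐 : Type u} [Category.{v} 𝓐] [Abelian 𝓐]

/-- a simple subquotient of an object with a jointly monic family of maps to the `S a` is a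
subquotient of one of the `S a` -/
lemma subquot_family : ∀ (n : ℕ) (Y : 𝓐) (S : Fin n → 𝓐) (q : ∀ a, Y ⟶ S a),
    (∀ {W : 𝓐} (f : W ⟶ Y), (∀ a, f ≫ q a = 0) → f = 0) → ∀ N : 𝓐, Simple N → SubQuot N Y →
    ∃ a, SubQuot N (S a) := by
  intro n
  induction n with
  | zero =>
    intro Y S q hq N hN h
    have h0 : 𝟙 Y = 0 := hq (𝟙 Y) fun a => a.elim0
    exact absurd h (SubQuot.not_zero ((IsZero.iff_id_eq_zero Y).2 h0))
  | succ n ih =>
    intro Y S q hq N hN h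
    have hex : (ShortComplex.mk (kernel.ι (q 0)) (q 0) (kernel.condition (q 0))).Exact :=
      ShortComplex.exact_kernel (q 0)
    rcases SubQuot.exact (kernel.ι (q 0)) (q 0) (kernel.condition (q 0)) hex h with h1 | h1
    · obtain ⟨a, ha⟩ := ih (kernel (q 0)) (fun a => S a.succ)
        (fun a => kernel.ι (q 0) ≫ q a.succ) (by
          intro W f hf
          have h2 : f ≫ kernel.ι (q 0) = 0 := by
            refine hq _ fun a => ?_
            refine Fin.cases ?_ (fun a => ?_) a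
            · rw [Category.assoc, kernel.condition, comp_zero]
            · rw [Category.assoc]
              exact hf a
          rw [← cancel_mono (kernel.ι (q 0)), h2, zero_comp]) N hN h1
      exact ⟨a.succ, ha⟩
    · exact ⟨0, h1⟩

lemma iso_of_subquot {N S : 𝓐} (hN : Simple N) (hS : Simple S) (h : SubQuot N S) :
    Nonempty (N ≅ S) := by
  obtain ⟨Y, i, p, hi, hp⟩ := h
  have hi0 : i ≠ 0 := by
    intro h0
    have hY : IsZero Y := (IsZero.iff_id_eq_zero Y).2 (by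
      rw [← cancel_mono i, h0, comp_zero, comp_zero])
    exact Simple.not_isZero N (IsZero.of_epi p hY)
  have h1 : IsIso i := isIso_of_mono_of_nonzero hi0
  have h2 : Epi (inv i ≫ p) := epi_comp _ _
  have h3 : inv i ≫ p ≠ 0 := by
    intro h0
    have h4 : IsZero N := (IsZero.iff_id_eq_zero N).2 (by
      rw [← cancel_epi (inv i ≫ p), h0, zero_comp, zero_comp])
    exact Simple.not_isZero N h4
  have h4 : IsIso (inv i ≫ p) := isIso_of_hom_simple h3
  exact ⟨(asIso (inv i ≫ p)).symm⟩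

/-- a simple subquotient of a semisimple object is a direct summand -/
lemma retract_of_subquot {M N : 𝓐} (hN : Simple N) {n : ℕ} (S : Fin n → 𝓐)
    (hS : ∀ a, Simple (S a)) (e : M ≅ ⨁ S) (h : SubQuot N M) :
    ∃ (i : N ⟶ M) (p : M ⟶ N), i ≫ p = 𝟙 N := by
  obtain ⟨a, ha⟩ := subquot_family n M S (fun a => e.hom ≫ biproduct.π S a) (by
    intro W f hf
    have h1 : f ≫ e.hom = 0 := biproduct.hom_ext _ _ fun a => by
      rw [Category.assoc, hf a, zero_comp]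
    rw [← cancel_mono e.hom, h1, zero_comp]) N hN h
  obtain ⟨e'⟩ := iso_of_subquot hN (hS a) ha
  refine ⟨e'.hom ≫ biproduct.ι S a ≫ e.inv, e.hom ≫ biproduct.π S a ≫ e'.inv, ?_⟩
  simp

end

section

variable {k : Type} [Field k] {𝓐 : Type u} [Category.{v} 𝓐] [Abelian 𝓐] {T : Theory k 𝓐}
  {𝓦 : Weights T} {ℓ : ℕ} [Fact ℓ.Prime] {Γ : Type} [Group Γ] (𝓡 : Realization T 𝓦 ℓ Γ)

lemma map_invariant {M N : 𝓐} (f : M ⟶ N) (v : 𝓡.R.obj M)
    (hv : ∀ g, (𝓡.R.obj M).ρ g v = v) (g : Γ) :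
    (𝓡.R.obj N).ρ g ((𝓡.R.map f).hom v) = (𝓡.R.map f).hom v := by
  have h := Rep.hom_comm_apply (𝓡.R.map f) g v
  rw [hv g] at h
  exact h.symm

lemma map_classes {M N : 𝓐} (f : M ⟶ N) (v : 𝓡.R.obj M) (hv : v ∈ 𝓡.classes M) :
    (𝓡.R.map f).hom v ∈ 𝓡.classes N := by
  unfold Realization.classes at hv ⊢
  induction hv using Submodule.span_induction with
  | mem x hx =>
    obtain ⟨h, rfl⟩ := hx
    refine Submodule.subset_span ⟨h ≫ f, ?_⟩
    rw [Functor.map_comp]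
    rfl
  | zero => rw [map_zero]; exact Submodule.zero_mem _
  | add x y _ _ hx hy => rw [map_add]; exact Submodule.add_mem _ hx hy
  | smul a x _ hx => rw [map_smul]; exact Submodule.smul_mem _ a hx

lemma tate_retract {M N : 𝓐} (i : N ⟶ M) (p : M ⟶ N) (hip : i ≫ p = 𝟙 N) (h : 𝓡.Tate M) :
    𝓡.Tate N := by
  intro v hv
  have h1 := map_classes 𝓡 p _ (h _ (map_invariant 𝓡 i v hv))
  have h2 : (𝓡.R.map p).hom ((𝓡.R.map i).hom v) = v := by
    have h3 : 𝓡.R.map i ≫ 𝓡.R.map p = 𝟙 _ := by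
      rw [← Functor.map_comp, hip, CategoryTheory.Functor.map_id]
    have h4 : (𝓡.R.map i ≫ 𝓡.R.map p).hom v = v := by
      rw [h3]
      rfl
    exact h4
  rw [h2] at h1
  exact h1

lemma tate_iso {M N : 𝓐} (e : M ≅ N) (h : 𝓡.Tate M) : 𝓡.Tate N :=
  tate_retract 𝓡 e.inv e.hom e.inv_hom_id h

lemma tate_sum {n : ℕ} (S : Fin n → 𝓐) (h : ∀ a, 𝓡.Tate (S a)) : 𝓡.Tate (⨁ S) := by
  intro v hv
  have h1 : v = ∑ a, (𝓡.R.map (biproduct.ι S a)).hom ((𝓡.R.map (biproduct.π S a)).hom v) := by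
    have h2 : 𝓡.R.map (𝟙 (⨁ S)) =
        ∑ a, 𝓡.R.map (biproduct.π S a) ≫ 𝓡.R.map (biproduct.ι S a) := by
      rw [← biproduct.total, Functor.map_sum]
      exact Finset.sum_congr rfl fun a _ => Functor.map_comp _ _ _
    rw [CategoryTheory.Functor.map_id] at h2
    let ev : (𝓡.R.obj (⨁ S) ⟶ 𝓡.R.obj (⨁ S)) →+ 𝓡.R.obj (⨁ S) :=
      { toFun := fun F => F.hom v
        map_zero' := rfl
        map_add' := fun F G => rfl }
    have h3 := congrArg ev h2
    rw [map_sum] at h3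
    exact h3
  rw [h1]
  exact Submodule.sum_mem _ fun a _ =>
    map_classes 𝓡 _ _ (h a _ (map_invariant 𝓡 (biproduct.π S a) v hv))

/-- the weight filtration and twists: a simple subquotient `N` of `M(m)` satisfies the Tate
conjecture if `(Gr^W_{2m} M)(m)` does -/
lemma tate_gr (M : 𝓐) (m : ℤ) (h : 𝓡.Tate ((T.tw m).obj (𝓦.gr (2 * m) M))) (N : 𝓐)
    (hN : Simple N) (hq : SubQuot N ((T.tw m).obj M)) : 𝓡.Tate N := by
  obtain ⟨e⟩ := T.twIso m (-m) (by ring)
  obtain ⟨e'⟩ := T.twIso (-m) m (by ring)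
  have h2 : SubQuot ((T.tw (-m)).obj N) M := (hq.map (T.tw (-m))).of_iso (e.app _)
  have h3 := simple_obj (T.tw (-m)) N
  obtain ⟨w, hw⟩ := 𝓦.cover _ _ h3 h2
  obtain ⟨n, S, hS, ⟨E⟩⟩ := 𝓦.semisimple w M
  obtain ⟨i, p, hip⟩ := retract_of_subquot h3 S hS E hw
  -- `N` is a direct summand of `(Gr^W_w M)(m)`
  let i' : N ⟶ (T.tw m).obj (𝓦.gr w M) := (e'.app N).inv ≫ (T.tw m).map i
  let p' : (T.tw m).obj (𝓦.gr w M) ⟶ N := (T.tw m).map p ≫ (e'.app N).hom
  have hip' : i' ≫ p' = 𝟙 N := by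
    have h4 : (T.tw m).map i ≫ (T.tw m).map p = 𝟙 _ := by
      rw [← Functor.map_comp, hip, CategoryTheory.Functor.map_id]
    change ((e'.app N).inv ≫ (T.tw m).map i) ≫ (T.tw m).map p ≫ (e'.app N).hom = 𝟙 N
    rw [Category.assoc, reassoc_of% h4]
    exact (e'.app N).inv_hom_id
  by_cases hwm : w = 2 * m
  · subst hwm
    exact tate_retract 𝓡 i' p' hip' h
  · intro v hv
    have h5 := 𝓡.purity w m M hwm _ (map_invariant 𝓡 i' v hv)
    have h6 : (𝓡.R.map i' ≫ 𝓡.R.map p').hom v = v := by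
      rw [← Functor.map_comp, hip', CategoryTheory.Functor.map_id]
      rfl
    have h7 : (𝓡.R.map p').hom ((𝓡.R.map i').hom v) = v := h6
    rw [h5, map_zero] at h7
    rw [← h7]
    exact Submodule.zero_mem _

/-- conversely `(Gr^W_w M)(m)` is a sum of simple subquotients of `M(m)` -/
lemma tate_of_simple (M : 𝓐) (w m : ℤ)
    (h : ∀ N : 𝓐, Simple N → SubQuot N ((T.tw m).obj M) → 𝓡.Tate N) :
    𝓡.Tate ((T.tw m).obj (𝓦.gr w M)) := by
  obtain ⟨n, S, hS, ⟨E⟩⟩ := 𝓦.semisimple w M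
  have hadd : (T.tw m).Additive := 𝓡.additive_tw m
  have h1 : 𝓡.Tate (⨁ fun a => (T.tw m).obj (S a)) := by
    refine tate_sum 𝓡 _ fun a => ?_
    have := hS a
    have h3 := simple_obj (T.tw m) (S a)
    refine h _ h3 ?_
    have h2 : SubQuot (S a) (⨁ S) := ⟨S a, biproduct.ι S a, 𝟙 _, inferInstance, inferInstance⟩
    exact (((h2.of_iso E.symm).trans (𝓦.sub w M)).map (T.tw m))
  have e1 : (T.tw m).obj (⨁ S) ≅ ⨁ fun a => (T.tw m).obj (S a) := (T.tw m).mapBiproduct S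
  exact tate_iso 𝓡 (((T.tw m).mapIso E) ≪≫ e1).symm h1

end

section

variable {𝓐 : Type u} [Category.{v} 𝓐] [Abelian 𝓐] {ℓ : ℕ} [Fact ℓ.Prime] {Γ : Type} [Group Γ]

theorem main_all (T : WeightTheory ℚ 𝓐) (𝓦 : Weights T.toTheory)
    (𝓡 : Realization T.toTheory 𝓦 ℓ Γ) (𝓥 : Motives 𝓡) :
    (𝓥.AllTate ↔ CubicsTate 𝓡) ∧ (𝓥.AllTate → SchemesTate 𝓡) := by
  have hpure : 𝓥.AllTate ↔ ∀ (w : ℤ) (M : 𝓐), T.IsPure w M → 𝓡.Tate M := by
    constructor
    · intro h w M hM v hv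
      obtain ⟨o, e, b, hb, hc⟩ := 𝓥.rational w M hM
      have h1 : b v ∈ 𝓥.classes o := h o (b v) fun g => by
        have h2 := hb (e.symm g) v
        rw [MulEquiv.apply_symm_apply, hv] at h2
        exact h2.symm
      rw [hc] at h1
      obtain ⟨u, hu, huv⟩ := h1
      have h3 : u = v := b.injective huv
      rw [← h3]
      exact hu
    · intro h o v hv
      obtain ⟨w, N, hN, b, hb, hc⟩ := 𝓥.reduction o
      exact hc v hv (h w N hN _ (hb v hv))
  have hall : 𝓥.AllTate → SchemesTate 𝓡 := by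
    rw [hpure]
    intro h X f hf i m
    refine tate_of_simple 𝓡 _ _ m fun N hN hq => ?_
    obtain ⟨w, hw⟩ := T.pure f hf i m N hN hq
    exact h w N hw
  refine ⟨⟨fun h M hM m => ?_, fun h => ?_⟩, hall⟩
  · obtain ⟨n, r, g, j, hg, rfl⟩ := hM
    exact hall h (str ℚ (Cubic g)) (cubic_ft g) j m
  · rw [hpure]
    rintro w M ⟨n, S, hS, ⟨E⟩⟩
    refine tate_iso 𝓡 E.symm (tate_sum 𝓡 S fun a => ?_)
    obtain ⟨hs, X, f, i, m, hf, -, hq⟩ := hS a
    obtain ⟨n', r, g, hg, j, m', hq'⟩ := T.toTheory.fromCubic closure_one_rat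
      (Set.mem_singleton 1) f hf.ft i m _ hs hq
    exact tate_gr 𝓡 (T.HC j g) m' (h _ ⟨n', r, g, j, hg, rfl⟩ m') _ hs hq'

end

end Pool.Agent.TH131.MTate
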