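import Pool.Agent.TH131.Semi.Defs

/-!
# The motivic Tate conjecture: definitions
-/

set_option autoImplicit false

open CategoryTheory CategoryTheory.Limits AlgebraicGeometry

namespace Pool.Agent.TH131.MTate

open Pool.Agent.TH90.Cub Pool.Agent.TH590.JH Pool.Agent.TH131.Semi

universe v u

/-- The `ℓ`-adic realization: an additive functor to the representations of the Galois group over
`ℚ_ℓ`, with the unit motive `ℚ(0)` and a basis of its realization. Purity (Deligne): a twist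
`(Gr^W_w M)(m)` has no invariants if `w ≠ 2m`. -/
structure Realization {k : Type} [Field k] {𝓐 : Type u} [Category.{v} 𝓐] [Abelian 𝓐]
    (T : Theory k 𝓐) (𝓦 : Weights T) (ℓ : ℕ) [Fact ℓ.Prime] (Γ : Type) [Group Γ] where
  /-- the realization functor -/
  R : 𝓐 ⥤ Rep.{0} ℚ_[ℓ] Γ
  [additive : R.Additive]
  /-- the unit motive `ℚ(0)` -/
  one : 𝓐
  /-- a basis vector of the realization of `ℚ(0)` -/
  e : R.obj one
  additive_tw : ∀ m : ℤ, (T.tw m).Additive
  purity : ∀ (w m : ℤ) (M : 𝓐), w ≠ 2 * m → ∀ v : R.obj ((T.tw m).obj (𝓦.gr w M)),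
    (∀ g, (R.obj ((T.tw m).obj (𝓦.gr w M))).ρ g v = v) → v = 0

attribute [instance] Realization.additive

variable {k : Type} [Field k] {𝓐 : Type u} [Category.{v} 𝓐] [Abelian 𝓐]

/-- The `ℚ_ℓ`-combinations of the motivic classes, i. e. of the morphisms `ℚ(0) → M`. -/
noncomputable def Realization.classes {T : Theory k 𝓐} {𝓦 : Weights T} {ℓ : ℕ} [Fact ℓ.Prime] {Γ : Type}
    [Group Γ] (𝓡 : Realization T 𝓦 ℓ Γ) (M : 𝓐) : Submodule ℚ_[ℓ] (𝓡.R.obj M) :=
  Submodule.span ℚ_[ℓ] {x | ∃ f : 𝓡.one ⟶ M, x = (𝓡.R.map f).hom 𝓡.e}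

/-- Every Galois invariant vector of the realization of `M` is a `ℚ_ℓ`-combination of motivic
classes. -/
def Realization.Tate {T : Theory k 𝓐} {𝓦 : Weights T} {ℓ : ℕ} [Fact ℓ.Prime] {Γ : Type}
    [Group Γ] (𝓡 : Realization T 𝓦 ℓ Γ) (M : 𝓐) : Prop :=
  ∀ v : 𝓡.R.obj M, (∀ g, (𝓡.R.obj M).ρ g v = v) → v ∈ 𝓡.classes M

variable {T : Theory ℚ 𝓐} {𝓦 : Weights T} {ℓ : ℕ} [Fact ℓ.Prime] {Γ : Type} [Group Γ]

/-- The representation `ρ` of `G` on `V` with the subspace `C` is the realization of the motive `M`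
over `ℚ` with the subspace of the motivic classes. -/
def IsRealization (𝓡 : Realization T 𝓦 ℓ Γ) (M : 𝓐) {G V : Type} [Group G] [AddCommGroup V]
    [Module ℚ_[ℓ] V] (ρ : Representation ℚ_[ℓ] G V) (C : Submodule ℚ_[ℓ] V) : Prop :=
  ∃ (e : Γ ≃* G) (b : 𝓡.R.obj M ≃ₗ[ℚ_[ℓ]] V), (∀ g v, b ((𝓡.R.obj M).ρ g v) = ρ (e g) (b v)) ∧
    C = (𝓡.classes M).map (b : 𝓡.R.obj M →ₗ[ℚ_[ℓ]] V)

/-- There is a linear map from `V` to the realization of `N` which maps invariants to invariants;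
an invariant lies in `C` if its image is a `ℚ_ℓ`-combination of motivic classes. -/
def ReducesTo (𝓡 : Realization T 𝓦 ℓ Γ) (N : 𝓐) {G V : Type} [Group G] [AddCommGroup V]
    [Module ℚ_[ℓ] V] (ρ : Representation ℚ_[ℓ] G V) (C : Submodule ℚ_[ℓ] V) : Prop :=
  ∃ b : V →ₗ[ℚ_[ℓ]] 𝓡.R.obj N, (∀ v, (∀ g, ρ g v = v) → ∀ g, (𝓡.R.obj N).ρ g (b v) = b v) ∧
    ∀ v, (∀ g, ρ g v = v) → b v ∈ 𝓡.classes N → v ∈ C

/-- The `ℓ`-adic realizations of all pure motives over all fields `k` finitely generated over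
`ℚ`; the index set consists of the pairs `(k, M)`. -/
structure Motives (𝓡 : Realization T 𝓦 ℓ Γ) extends Family ℚ_[ℓ] where
  /-- the `ℚ_ℓ`-combinations of the motivic classes, i. e. of morphisms `ℚ(0) → M` over `k` -/
  classes : ∀ o, Submodule ℚ_[ℓ] (V o)
  /-- the pure motives over `ℚ` are among the `(k, M)` -/
  rational : ∀ (w : ℤ) (M : 𝓐), T.IsPure w M → ∃ o : Index, IsRealization 𝓡 M (ρ o) (classes o)
  /-- Reduction to `ℚ`: `M` specializes to a motive `M_s` over a number field `L` with the same image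
  of the Galois group (Serre); its motivic classes are invariant under the Galois group of `k`, so
  they are motivic classes of `M` (André's deformation principle). Let `N` be the motive `M_s`
  considered as a motive over `ℚ`; the invariants and the motivic classes of `M_s` and of
  `N` are the same (Frobenius reciprocity). -/
  reduction : ∀ o : Index, ∃ (w : ℤ) (N : 𝓐), T.IsPure w N ∧ ReducesTo 𝓡 N (ρ o) (classes o)

/-- For all finitely generated fields `k` of characteristic zero and all pure motives `M` over `k`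
every Galois invariant vector of `M_ℓ` is a `ℚ_ℓ`-combination of motivic classes. -/
def Motives.AllTate {𝓡 : Realization T 𝓦 ℓ Γ} (𝓥 : Motives 𝓡) : Prop :=
  ∀ (o : 𝓥.Index) (v : 𝓥.V o), (∀ g, 𝓥.ρ o g v = v) → v ∈ 𝓥.classes o

/-- The same for the motives `(Gr^W_{2m} H_c^j(C))(m)` over `ℚ`, where `C` is a hypersurface
`g_0 t_0 + ⋯ + g_r t_r = 1` over `ℚ`, each `g_i` being of the form `x_a x_b - x_c`,
`x_a + x_b - x_c` or `x_a - 1`. -/
def CubicsTate (𝓡 : Realization T 𝓦 ℓ Γ) : Prop :=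
  ∀ M : 𝓐, T.IsHC {1} M → ∀ m : ℤ, 𝓡.Tate ((T.tw m).obj (𝓦.gr (2 * m) M))

/-- The same for the motives `(Gr^W_{2m} H_c^i(X))(m)`, `X` separated of finite type over `ℚ`. -/
def SchemesTate (𝓡 : Realization T 𝓦 ℓ Γ) : Prop :=
  ∀ {X : Scheme.{0}} (f : X ⟶ Spec (CommRingCat.of ℚ)), FT True ℚ f →
    ∀ i m : ℤ, 𝓡.Tate ((T.tw m).obj (𝓦.gr (2 * m) (T.H i X f)))

end Pool.Agent.TH131.MTate
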